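import Pool.Agent.Helper74.OKA.Kern
import Pool.Agent.Helper82.OKA.A13

set_option autoImplicit false

open Set Metric Topology MeasureTheory
open scoped Manifold ContDiff

namespace Pool.Agent.Helper74.OKA

universe u

variable {G G' F : Type} [NormedAddCommGroup G] [NormedSpace ℂ G] [FiniteDimensional ℂ G]
  [NormedAddCommGroup G'] [NormedSpace ℂ G'] [FiniteDimensional ℂ G']
  [NormedAddCommGroup F] [NormedSpace ℂ F] [FiniteDimensional ℂ F]

/-- polyhedra around a convex compact set -/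
theorem exists_poly (X : Set G) (hX : IsCompact X) (hXc : Convex ℝ X) (m : G →L[ℝ] ℝ)
    (hm : m ≠ 0) (t : ℝ) (W : Set G) (hW : IsOpen W) (h : X ∩ {z | m z = t} ⊆ W) :
    ∃ (ι : Type) (_ : Fintype ι) (_ : DecidableEq ι) (e : ι → G →L[ℂ] ℂ) (v : ι → G)
      (Q : ι → Set ℂ) (L : List ((G →L[ℂ] ℂ) × Set ℂ)) (i : ι), IsCoord e v ∧
      (∀ i, IsRect (Q i)) ∧ (∀ x ∈ L, IsRect x.2) ∧ (∀ z, (e i z).re = m z) ∧
      X ⊆ Poly e Q L ∧ Poly e Q L ∩ {z | m z = t} ⊆ W :=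
  Pool.Agent.Helper82.OKA.exists_poly X hX hXc m hm t W hW h

end Pool.Agent.Helper74.OKA
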