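import Pool.Agent.Helper74.OKA.Kern
import Pool.Agent.Helper82.OKA.B3bcd

set_option autoImplicit false

open Set Metric Topology MeasureTheory
open scoped Manifold ContDiff

namespace Pool.Agent.Helper74.OKA

universe u

variable {E E' H : Type} [NormedAddCommGroup E] [NormedSpace ℂ E] [FiniteDimensional ℂ E]
  [NormedAddCommGroup E'] [NormedSpace ℂ E'] [FiniteDimensional ℂ E']
  [NormedAddCommGroup H] [InnerProductSpace ℂ H] [FiniteDimensional ℂ H]

/-- B3b -/
theorem BallLike.prod_zero {K : Set E} (hK : IsCompact K) (h : BallLike K) :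
    BallLike (K ×ˢ {0} : Set (E × E')) :=
  Pool.Agent.Helper82.OKA.BallLike.prod_zero hK h

/-- B3c -/
theorem ballLike_closedBall : BallLike (closedBall (0 : H) 1) :=
  Pool.Agent.Helper82.OKA.ballLike_closedBall

/-- B3d -/
theorem BallLike.image {K : Set E} (h : BallLike K) (e : E ≃L[ℂ] E') (c : E') :
    BallLike ((fun z => e z + c) '' K) :=
  Pool.Agent.Helper82.OKA.BallLike.image h e c

end Pool.Agent.Helper74.OKA
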