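import Pool.Agent.Helper74.OKA.Kern
import Pool.Agent.Helper85.OKA.C1

set_option autoImplicit false

open Set Metric Topology MeasureTheory
open scoped Manifold ContDiff

namespace Pool.Agent.Helper74.OKA

universe u

variable (F : Type) [NormedAddCommGroup F] [NormedSpace ℂ F] [FiniteDimensional ℂ F]
  {Y : Type u} [MetricSpace Y] [ChartedSpace F Y] [IsManifold 𝓘(ℂ, F) 1 Y]
  {E : Type} [NormedAddCommGroup E] [NormedSpace ℂ E] [FiniteDimensional ℂ E]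

/-- C1: chart sprays are étale -/
theorem etaleAt_chart (f : E → Y) (U : Set E) (hU : IsOpen U)
    (hf : MDifferentiableOn 𝓘(ℂ, E) 𝓘(ℂ, F) f U) (z₀ : E) (hz₀ : z₀ ∈ U) :
    ∃ (O : Set E) (r : ℝ) (s : E × F → Y), IsOpen O ∧ z₀ ∈ O ∧ O ⊆ U ∧ 0 < r ∧
      MDifferentiableOn 𝓘(ℂ, E × F) 𝓘(ℂ, F) s (O ×ˢ ball 0 r) ∧ (∀ z ∈ O, s (z, 0) = f z) ∧
      ∀ z ∈ O, ∀ t ∈ ball (0 : F) r, EtaleAt F s (z, t) :=
  Pool.Agent.Helper85.OKA.etaleAt_chart F f U hU hf z₀ hz₀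

end Pool.Agent.Helper74.OKA
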