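import Pool.Agent.Helper74.OKA.Kern
import Pool.Agent.Helper60.OKA.C3

set_option autoImplicit false

open Set Metric Topology MeasureTheory
open scoped Manifold ContDiff

namespace Pool.Agent.Helper74.OKA

universe u

variable (F : Type) [NormedAddCommGroup F] [NormedSpace ℂ F] [FiniteDimensional ℂ F]
  {Y : Type u} [MetricSpace Y] [ChartedSpace F Y] [IsManifold 𝓘(ℂ, F) 1 Y]
  {E : Type} [NormedAddCommGroup E] [NormedSpace ℂ E] [FiniteDimensional ℂ E]

/-- C3: étale families with compact core give sprays -/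
theorem hasSpray_of_etale (f : E → Y) (X : Set E) (hX : IsCompact X) (U : Set E) (r : ℝ)
    (hU : IsOpen U) (hXU : X ⊆ U) (hr : 0 < r) (s : E × F → Y)
    (hs : MDifferentiableOn 𝓘(ℂ, E × F) 𝓘(ℂ, F) s (U ×ˢ ball 0 r))
    (hcore : ∀ z ∈ U, s (z, 0) = f z) (het : ∀ z ∈ X, EtaleAt F s (z, 0)) :
    HasSpray F f X :=
  Pool.Agent.Helper60.OKA.hasSpray_of_etale F f X hX U r hU hXU hr s hs hcore het

end Pool.Agent.Helper74.OKA
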