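import Pool.Agent.Helper74.OKA.Kern
import Pool.Agent.Helper78.OKA.A01

set_option autoImplicit false

open Set Metric Topology MeasureTheory
open scoped Manifold ContDiff

namespace Pool.Agent.Helper74.OKA

universe u

variable {G G' F : Type} [NormedAddCommGroup G] [NormedSpace ℂ G] [FiniteDimensional ℂ G]
  [NormedAddCommGroup G'] [NormedSpace ℂ G'] [FiniteDimensional ℂ G']
  [NormedAddCommGroup F] [NormedSpace ℂ F] [FiniteDimensional ℂ F]

/-- A0c: Cauchy estimate -/
theorem norm_fderiv_le {z : G} {r M : ℝ} (hr : 0 < r) {f : G → F}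
    (hf : DifferentiableOn ℂ f (ball z r)) (hM : ∀ x ∈ ball z r, ‖f x‖ ≤ M) :
    ‖fderiv ℂ f z‖ ≤ M / r :=
  Pool.Agent.Helper78.OKA.norm_fderiv_le hr hf hM

/-- A0d: locally uniform limits -/
theorem differentiableOn_of_tendstoLocallyUniformlyOn {U : Set G} (hU : IsOpen U)
    {f : ℕ → G → F} {g : G → F} (hf : ∀ n, DifferentiableOn ℂ (f n) U)
    (h : TendstoLocallyUniformlyOn f g Filter.atTop U) : DifferentiableOn ℂ g U :=
  Pool.Agent.Helper78.OKA.differentiableOn_of_tendstoLocallyUniformlyOn hU hf h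

end Pool.Agent.Helper74.OKA
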