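import Pool.Agent.Helper74.OKA.Kern
import Pool.Agent.Helper65.OKA.A03

set_option autoImplicit false

open Set Metric Topology MeasureTheory
open scoped Manifold ContDiff

namespace Pool.Agent.Helper74.OKA

universe u

variable {G G' F : Type} [NormedAddCommGroup G] [NormedSpace ℂ G] [FiniteDimensional ℂ G]
  [NormedAddCommGroup G'] [NormedSpace ℂ G'] [FiniteDimensional ℂ G']
  [NormedAddCommGroup F] [NormedSpace ℂ F] [FiniteDimensional ℂ F]

/-- A0a: the derivative of a holomorphic function of several variables is holomorphic -/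
theorem differentiableOn_fderiv {U : Set G} (hU : IsOpen U) {f : G → F}
    (hf : DifferentiableOn ℂ f U) : DifferentiableOn ℂ (fderiv ℂ f) U :=
  Pool.Agent.Helper65.OKA.differentiableOn_fderiv hU hf

/-- A0b -/
theorem contDiffOn_of_differentiableOn {U : Set G} (hU : IsOpen U) {f : G → F}
    (hf : DifferentiableOn ℂ f U) (n : ℕ) : ContDiffOn ℂ n f U :=
  Pool.Agent.Helper65.OKA.contDiffOn_of_differentiableOn hU hf n

end Pool.Agent.Helper74.OKA
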