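import Pool.Agent.Helper74.OKA.Kern
import Pool.Agent.Helper39.OKA.A14

set_option autoImplicit false

open Set Metric Topology MeasureTheory
open scoped Manifold ContDiff

namespace Pool.Agent.Helper74.OKA

universe u

variable {G G' F : Type} [NormedAddCommGroup G] [NormedSpace ℂ G] [FiniteDimensional ℂ G]
  [NormedAddCommGroup G'] [NormedSpace ℂ G'] [FiniteDimensional ℂ G']
  [NormedAddCommGroup F] [NormedSpace ℂ F] [FiniteDimensional ℂ F]

/-- A14 (uses A12, A13): nonlinear splitting for convex compact sets -/
theorem ns_convex (X : Set G) (hX : IsCompact X) (hXc : Convex ℝ X) (m : G →L[ℝ] ℝ) (t : ℝ) :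
    NS F X m t :=
  Pool.Agent.Helper39.OKA.ns_convex X hX hXc m t

end Pool.Agent.Helper74.OKA
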