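import Pool.Agent.Helper74.OKA.Kern
import Pool.Agent.Helper85.OKA.C2

set_option autoImplicit false

open Set Metric Topology MeasureTheory
open scoped Manifold ContDiff

namespace Pool.Agent.Helper74.OKA

universe u

variable (F : Type) [NormedAddCommGroup F] [NormedSpace ℂ F] [FiniteDimensional ℂ F]
  {Y : Type u} [MetricSpace Y] [ChartedSpace F Y] [IsManifold 𝓘(ℂ, F) 1 Y]
  {E : Type} [NormedAddCommGroup E] [NormedSpace ℂ E] [FiniteDimensional ℂ E]

/-- C2: reparametrisation of an étale family -/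
theorem EtaleAt.reparam {s : E × F → Y} {z₀ : E} {t₀ : F} (τ : E × F → F)
    (h : EtaleAt F s (z₀, τ (z₀, t₀))) (O : Set (E × F)) (hO : IsOpen O) (h₀ : (z₀, t₀) ∈ O)
    (hτ : DifferentiableOn ℂ τ O)
    (hD : Function.Bijective (fderiv ℂ (fun t => τ (z₀, t)) t₀)) :
    EtaleAt F (fun x => s (x.1, τ x)) (z₀, t₀) :=
  Pool.Agent.Helper85.OKA.EtaleAt.reparam F τ h O hO h₀ hτ hD

end Pool.Agent.Helper74.OKA
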