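import Pool.Agent.Helper74.OKA.Kern
import Pool.Agent.Helper39.OKA.B4

set_option autoImplicit false

open Set Metric Topology MeasureTheory
open scoped Manifold ContDiff

namespace Pool.Agent.Helper74.OKA

universe u

variable {E E' H : Type} [NormedAddCommGroup E] [NormedSpace ℂ E] [FiniteDimensional ℂ E]
  [NormedAddCommGroup E'] [NormedSpace ℂ E'] [FiniteDimensional ℂ E']
  [NormedAddCommGroup H] [InnerProductSpace ℂ H] [FiniteDimensional ℂ H]

/-- B4 (uses B3) -/
theorem exists_ballLike (V : Submodule ℝ E) (R : ℝ) : ∃ D : Set E, IsCompact D ∧ Convex ℝ D ∧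
    D ⊆ V ∧ BallLike D ∧ ∀ x ∈ V, ‖x‖ ≤ R → x ∈ D :=
  Pool.Agent.Helper39.OKA.exists_ballLike V R

end Pool.Agent.Helper74.OKA
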