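import Pool.Agent.Helper74.OKA.Kern
import Pool.Agent.Helper85.OKA.B5

set_option autoImplicit false

open Set Metric Topology MeasureTheory
open scoped Manifold ContDiff

namespace Pool.Agent.Helper74.OKA

universe u

variable {E E' H : Type} [NormedAddCommGroup E] [NormedSpace ℂ E] [FiniteDimensional ℂ E]
  [NormedAddCommGroup E'] [NormedSpace ℂ E'] [FiniteDimensional ℂ E']
  [NormedAddCommGroup H] [InnerProductSpace ℂ H] [FiniteDimensional ℂ H]

variable (F : Type) [NormedAddCommGroup F] [NormedSpace ℂ F] [FiniteDimensional ℂ F]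
  (Y : Type u) [MetricSpace Y] [ChartedSpace F Y] [IsManifold 𝓘(ℂ, F) 1 Y]

/-- B5 -/
theorem approx_of_ballLike (hB : BAP F Y) {K : Set E} (hK : IsCompact K) (h : BallLike K) :
    Approx F Y K :=
  Pool.Agent.Helper85.OKA.approx_of_ballLike F Y hB hK h

end Pool.Agent.Helper74.OKA
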