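import Pool.Agent.Helper74.OKA.Kern
import Pool.Agent.Helper80.OKA.C4

set_option autoImplicit false

open Set Metric Topology MeasureTheory
open scoped Manifold ContDiff

namespace Pool.Agent.Helper74.OKA

universe u

variable (F : Type) [NormedAddCommGroup F] [NormedSpace ℂ F] [FiniteDimensional ℂ F]
  {Y : Type u} [MetricSpace Y] [ChartedSpace F Y] [IsManifold 𝓘(ℂ, F) 1 Y]
  {E : Type} [NormedAddCommGroup E] [NormedSpace ℂ E] [FiniteDimensional ℂ E]

/-- C4: the gluing lemma (uses A14) -/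
theorem glue (hSp : HasSprays F Y) (X : Set E) (hX : IsCompact X) (hXc : Convex ℝ X)
    (m : E →L[ℝ] ℝ) (t : ℝ) (hA : Approx F Y X)
    (hS : Approx F Y ((X ∩ {z | m z = t}) ×ˢ {(0 : F)})) :
    Approx F Y (X ∩ {z | m z ≤ t}) :=
  Pool.Agent.Helper80.OKA.glue F hSp X hX hXc m t hA hS

end Pool.Agent.Helper74.OKA
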