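import Pool.Agent.Helper74.OKA.Kern
import Pool.Agent.Helper59.OKA.C6

set_option autoImplicit false

open Set Metric Topology MeasureTheory
open scoped Manifold ContDiff

namespace Pool.Agent.Helper74.OKA

universe u

variable (F : Type) [NormedAddCommGroup F] [NormedSpace ℂ F] [FiniteDimensional ℂ F]
  {Y : Type u} [MetricSpace Y] [ChartedSpace F Y] [IsManifold 𝓘(ℂ, F) 1 Y]
  {E : Type} [NormedAddCommGroup E] [NormedSpace ℂ E] [FiniteDimensional ℂ E]

/-- C6: BAP for vector spaces -/
theorem bap_self : BAP F F :=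
  Pool.Agent.Helper59.OKA.bap_self F

end Pool.Agent.Helper74.OKA
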