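import Pool.Agent.Helper74.OKA.Kern
import Pool.Agent.Helper81.OKA.C8

set_option autoImplicit false

open Set Metric Topology MeasureTheory
open scoped Manifold ContDiff

namespace Pool.Agent.Helper74.OKA

universe u

variable (F : Type) [NormedAddCommGroup F] [NormedSpace ℂ F] [FiniteDimensional ℂ F]
  {Y : Type u} [MetricSpace Y] [ChartedSpace F Y] [IsManifold 𝓘(ℂ, F) 1 Y]
  {E : Type} [NormedAddCommGroup E] [NormedSpace ℂ E] [FiniteDimensional ℂ E]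

/-- C8 (uses C5, C6, C7 for the vector space `F →L[ℂ] F`) -/
theorem gl_runge (S : Set E) (hS : IsCompact S) (hSc : Convex ℝ S) (U : Set E) (hU : IsOpen U)
    (hSU : S ⊆ U) (g : E → (F →L[ℂ] F)) (hg : DifferentiableOn ℂ g U)
    (hu : ∀ z ∈ U, IsUnit (g z)) (ε : ℝ) (hε : 0 < ε) :
    ∃ h : E → (F →L[ℂ] F), Differentiable ℂ h ∧ (∀ z, IsUnit (h z)) ∧
      ∃ W : Set E, IsOpen W ∧ S ⊆ W ∧ ∀ z ∈ W, ‖h z - g z‖ < ε :=
  Pool.Agent.Helper81.OKA.gl_runge F S hS hSc U hU hSU g hg hu ε hε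

end Pool.Agent.Helper74.OKA
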