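import Pool.Agent.Helper74.OKA.Kern
import Pool.Agent.Helper81.OKA.C9

set_option autoImplicit false

open Set Metric Topology MeasureTheory
open scoped Manifold ContDiff

namespace Pool.Agent.Helper74.OKA

universe u

variable (F : Type) [NormedAddCommGroup F] [NormedSpace ℂ F] [FiniteDimensional ℂ F]
  {Y : Type u} [MetricSpace Y] [ChartedSpace F Y] [IsManifold 𝓘(ℂ, F) 1 Y]
  {E : Type} [NormedAddCommGroup E] [NormedSpace ℂ E] [FiniteDimensional ℂ E]

/-- C9 (uses A14, C2, C3, C8) -/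
theorem spray_merge (f : E → Y) (U : Set E) (hU : IsOpen U)
    (hf : MDifferentiableOn 𝓘(ℂ, E) 𝓘(ℂ, F) f U) (X : Set E) (hX : IsCompact X)
    (hXc : Convex ℝ X) (hXU : X ⊆ U) (m : E →L[ℝ] ℝ) (t : ℝ)
    (h₁ : HasSpray F f (X ∩ {z | m z ≤ t})) (h₂ : HasSpray F f (X ∩ {z | t ≤ m z})) :
    HasSpray F f X :=
  Pool.Agent.Helper81.OKA.spray_merge F f U hU hf X hX hXc hXU m t h₁ h₂

end Pool.Agent.Helper74.OKA
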