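import Pool.Agent.Helper74.OKA.Kern
import Pool.Agent.Helper78.OKA.A2a

set_option autoImplicit false

open Set Metric Topology MeasureTheory
open scoped Manifold ContDiff

namespace Pool.Agent.Helper74.OKA

universe u

/-- A2a -/
theorem kernel_bound (ε R : ℝ) : ∃ K : ℝ, 0 < K ∧ ∀ w : ℂ,
    IntegrableOn (fun ζ : ℂ => ‖ζ - w‖⁻¹) (Rc ε R) ∧ ∫ ζ in Rc ε R, ‖ζ - w‖⁻¹ ≤ K :=
  Pool.Agent.Helper78.OKA.kernel_bound ε R

end Pool.Agent.Helper74.OKA
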