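import Pool.Agent.Helper74.OKA.Kern
import Pool.Agent.Helper44.OKA.A2b

set_option autoImplicit false

open Set Metric Topology MeasureTheory
open scoped Manifold ContDiff

namespace Pool.Agent.Helper74.OKA

universe u

/-- A2b -/
theorem kernel_hol (ε R : ℝ) (hε : 0 < ε) (hR : 0 < R) :
    DifferentiableOn ℂ (fun w : ℂ => (ramp ε w.re : ℂ) +
      (1 / (2 * Real.pi * ε) : ℝ) • ∫ ζ in Rc ε R, (ζ - w)⁻¹) {w | |w.im| < R} :=
  Pool.Agent.Helper44.OKA.kernel_hol ε R hε hR

end Pool.Agent.Helper74.OKA
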