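import Pool.Agent.Helper74.OKA.Kern
import Pool.Agent.Helper42.OKA.A3

set_option autoImplicit false

open Set Metric Topology MeasureTheory
open scoped Manifold ContDiff

namespace Pool.Agent.Helper74.OKA

universe u

theorem exists_split (ε R : ℝ) (hε : 0 < ε) (hR : 0 < R) (G F : Type) [NormedAddCommGroup G]
    [NormedSpace ℂ G] [FiniteDimensional ℂ G] [NormedAddCommGroup F] [NormedSpace ℂ F]
    [FiniteDimensional ℂ F] :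
    ∃ (K : ℝ) (𝒜 ℬ : (ℂ × G → F) → ℂ × G → F), 0 < K ∧
      (∀ (P : Set G) (c : ℂ × G → F) (M : ℝ), IsOpen P → HB (Cs ε R) P M c →
        DifferentiableOn ℂ (𝒜 c) (As ε R ×ˢ P) ∧ DifferentiableOn ℂ (ℬ c) (Bs ε R ×ˢ P) ∧
        ∀ x ∈ Cs ε R ×ˢ P, ℬ c x - 𝒜 c x = c x) ∧
      (∀ (P : Set G) (c c' : ℂ × G → F) (M : ℝ), IsOpen P → HB (Cs ε R) P M c →
        HB (Cs ε R) P M c' → ∀ p ∈ P, ∀ δ : ℝ, (∀ w ∈ Cs ε R, ‖c (w, p) - c' (w, p)‖ ≤ δ) →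
          (∀ w ∈ As ε R, ‖𝒜 c (w, p) - 𝒜 c' (w, p)‖ ≤ K * δ) ∧
          ∀ w ∈ Bs ε R, ‖ℬ c (w, p) - ℬ c' (w, p)‖ ≤ K * δ) ∧
      (∀ w p, 𝒜 0 (w, p) = 0) ∧ ∀ w p, ℬ 0 (w, p) = 0 :=
  Pool.Agent.Helper42.OKA.exists_split ε R hε hR G F

end Pool.Agent.Helper74.OKA
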