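import Pool.Agent.Helper74.OKA.Kern
import Pool.Agent.Helper71.OKA.A4

set_option autoImplicit false

open Set Metric Topology MeasureTheory
open scoped Manifold ContDiff

namespace Pool.Agent.Helper74.OKA

universe u

theorem nonlinear_split (ε R : ℝ) (hε : 0 < ε) (hR : 0 < R) (G F : Type) [NormedAddCommGroup G]
    [NormedSpace ℂ G] [FiniteDimensional ℂ G] [NormedAddCommGroup F] [NormedSpace ℂ F]
    [FiniteDimensional ℂ F] (ρ : ℝ) (hρ : 0 < ρ) :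
    ∃ δ > 0, ∀ (P : Set G) (η : ℂ × G × F → F), IsOpen P →
      DifferentiableOn ℂ η (Cs ε R ×ˢ P ×ˢ ball 0 1) →
      (∀ x ∈ Cs ε R ×ˢ P ×ˢ ball (0 : F) 1, ‖η x‖ ≤ δ) →
      ∃ a b : ℂ × G × F → F,
        DifferentiableOn ℂ a (As ε R ×ˢ P ×ˢ ball 0 (1 / 2)) ∧
        DifferentiableOn ℂ b (Bs ε R ×ˢ P ×ˢ ball 0 (1 / 2)) ∧
        (∀ x ∈ As ε R ×ˢ P ×ˢ ball (0 : F) (1 / 2), ‖a x‖ ≤ ρ) ∧
        (∀ x ∈ Bs ε R ×ˢ P ×ˢ ball (0 : F) (1 / 2), ‖b x‖ ≤ ρ) ∧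
        (∀ w ∈ Cs ε R, ∀ g ∈ P, ∀ s ∈ ball (0 : F) (1 / 2),
          b (w, g, s) = a (w, g, s) + η (w, g, s + a (w, g, s))) ∧
        ∀ g ∈ P, (∀ w ∈ Cs ε R, η (w, g, 0) = 0) →
          (∀ w ∈ As ε R, a (w, g, 0) = 0) ∧ ∀ w ∈ Bs ε R, b (w, g, 0) = 0 :=
  Pool.Agent.Helper71.OKA.nonlinear_split ε R hε hR G F ρ hρ

end Pool.Agent.Helper74.OKA
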