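import Pool.Agent.Helper74.OKA.Kern
import Pool.Agent.Helper99.OKA.Box

set_option autoImplicit false

open Set Metric Topology MeasureTheory
open scoped Manifold ContDiff

namespace Pool.Agent.Helper74.OKA

universe u

variable {G G' F : Type} [NormedAddCommGroup G] [NormedSpace ℂ G] [FiniteDimensional ℂ G]
  [NormedAddCommGroup G'] [NormedSpace ℂ G'] [FiniteDimensional ℂ G']
  [NormedAddCommGroup F] [NormedSpace ℂ F] [FiniteDimensional ℂ F]

theorem ns_box {ι : Type} [Fintype ι] [DecidableEq ι] (e : ι → G →L[ℂ] ℂ) (v : ι → G)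
    (he : IsCoord e v) (Q : ι → Set ℂ) (hQ : ∀ i, IsRect (Q i)) (i : ι) (t : ℝ) :
    NS F (Poly e Q []) (fun z => (e i z).re) t :=
  Pool.Agent.Helper99.OKA.ns_box e v he Q hQ i t

end Pool.Agent.Helper74.OKA
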