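import Pool.Agent.Helper74.OKA.Kern
import Pool.Agent.Helper74.OKA.P.A12

set_option autoImplicit false

open Set Metric Topology MeasureTheory
open scoped Manifold ContDiff

namespace Pool.Agent.Helper74.OKA

universe u

variable {G G' F : Type} [NormedAddCommGroup G] [NormedSpace ℂ G] [FiniteDimensional ℂ G]
  [NormedAddCommGroup G'] [NormedSpace ℂ G'] [FiniteDimensional ℂ G']
  [NormedAddCommGroup F] [NormedSpace ℂ F] [FiniteDimensional ℂ F]

theorem ns_poly (n : ℕ) :
    ∀ (G : Type) [NormedAddCommGroup G] [NormedSpace ℂ G] [FiniteDimensional ℂ G]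
      (ι : Type) [Fintype ι] [DecidableEq ι] (e : ι → G →L[ℂ] ℂ) (v : ι → G) (Q : ι → Set ℂ)
      (L : List ((G →L[ℂ] ℂ) × Set ℂ)), IsCoord e v → (∀ i, IsRect (Q i)) →
      (∀ x ∈ L, IsRect x.2) → L.length = n → ∀ (i : ι) (t : ℝ),
      NS F (Poly e Q L) (fun z => (e i z).re) t :=
  Pool.Agent.Helper74.OKA.P.ns_poly n

end Pool.Agent.Helper74.OKA
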