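import Pool.Agent.Helper74.OKA.Kern
import Pool.Agent.Helper58.OKA.A7

set_option autoImplicit false

open Set Metric Topology MeasureTheory
open scoped Manifold ContDiff

namespace Pool.Agent.Helper74.OKA

universe u

variable {G G' F : Type} [NormedAddCommGroup G] [NormedSpace ℂ G] [FiniteDimensional ℂ G]
  [NormedAddCommGroup G'] [NormedSpace ℂ G'] [FiniteDimensional ℂ G']
  [NormedAddCommGroup F] [NormedSpace ℂ F] [FiniteDimensional ℂ F]

theorem division (lam : G →L[ℂ] ℂ) (D : Set (G × ℂ)) (hD : IsOpen D) (K : Set (G × ℂ))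
    (hK : IsCompact K) (hKD : K ⊆ D) (P : Set G') (hP : IsOpen P) (M : ℝ) :
    ∃ (D' : Set (G × ℂ)) (M' : ℝ), IsOpen D' ∧ K ⊆ D' ∧ D' ⊆ D ∧ 0 < M' ∧
      ∀ d : (G × ℂ) × G' → F, HB D P M d →
        (∀ z, (z, lam z) ∈ D → ∀ p ∈ P, d ((z, lam z), p) = 0) →
        ∃ q : (G × ℂ) × G' → F, HB D' P M' q ∧
          (∀ x ∈ D', ∀ p ∈ P, d (x, p) = (lam x.1 - x.2) • q (x, p)) ∧
          ∀ p ∈ P, (∀ x ∈ D, d (x, p) = 0) → ∀ x ∈ D', q (x, p) = 0 :=
  Pool.Agent.Helper58.OKA.division lam D hD K hK hKD P hP M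

end Pool.Agent.Helper74.OKA
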