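import Pool.Agent.Helper74.OKA.Kern
import Pool.Agent.Helper58.OKA.A8

set_option autoImplicit false

open Set Metric Topology MeasureTheory
open scoped Manifold ContDiff

namespace Pool.Agent.Helper74.OKA

universe u

variable {G G' F : Type} [NormedAddCommGroup G] [NormedSpace ℂ G] [FiniteDimensional ℂ G]
  [NormedAddCommGroup G'] [NormedSpace ℂ G'] [FiniteDimensional ℂ G']
  [NormedAddCommGroup F] [NormedSpace ℂ F] [FiniteDimensional ℂ F]

theorem ext_local (lam : G →L[ℂ] ℂ) (W : Set G) (hW : IsOpen W) (K : Set (G × ℂ))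
    (hK : IsCompact K) (h : ∀ z, (z, lam z) ∈ K → z ∈ W) (P : Set G') :
    ∃ δ > 0, ∀ K' ⊆ K, (∀ x ∈ K', ∀ y ∈ K', dist x y ≤ δ) → ExtW F P lam W K' :=
  Pool.Agent.Helper58.OKA.ext_local lam W hW K hK h P

end Pool.Agent.Helper74.OKA
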