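import Pool.Agent.Helper74.OKA.Kern
import Pool.Agent.Helper58.OKA.A9

set_option autoImplicit false

open Set Metric Topology MeasureTheory
open scoped Manifold ContDiff

namespace Pool.Agent.Helper74.OKA

universe u

variable {G G' F : Type} [NormedAddCommGroup G] [NormedSpace ℂ G] [FiniteDimensional ℂ G]
  [NormedAddCommGroup G'] [NormedSpace ℂ G'] [FiniteDimensional ℂ G']
  [NormedAddCommGroup F] [NormedSpace ℂ F] [FiniteDimensional ℂ F]

theorem ext_merge (lam : G →L[ℂ] ℂ) (W : Set G) (hW : IsOpen W) (P : Set G') (hP : IsOpen P)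
    (K : Set (G × ℂ)) (hK : IsCompact K) (m : G × ℂ → ℝ) (hm : Continuous m) (t : ℝ)
    (h₁ : ExtW F P lam W (K ∩ {x | m x ≤ t})) (h₂ : ExtW F P lam W (K ∩ {x | t ≤ m x}))
    (hCP : CP F P K m t) : ExtW F P lam W K :=
  Pool.Agent.Helper58.OKA.ext_merge lam W hW P hP K hK m hm t h₁ h₂ hCP

end Pool.Agent.Helper74.OKA
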