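import Pool.Agent.Helper74.OKA.Kern
import Pool.Agent.Helper16.OKA.B2

set_option autoImplicit false

open Set Metric Topology MeasureTheory
open scoped Manifold ContDiff

namespace Pool.Agent.Helper74.OKA

universe u

variable {E E' H : Type} [NormedAddCommGroup E] [NormedSpace ℂ E] [FiniteDimensional ℂ E]
  [NormedAddCommGroup E'] [NormedSpace ℂ E'] [FiniteDimensional ℂ E']
  [NormedAddCommGroup H] [InnerProductSpace ℂ H] [FiniteDimensional ℂ H]

/-- B2: closed ball times segment -/
theorem ballLike_ball_seg : BallLike (closedBall (0 : H) 1 ×ˢ seg : Set (H × ℂ)) :=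
  Pool.Agent.Helper16.OKA.ballLike_ball_seg

end Pool.Agent.Helper74.OKA
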