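import Pool.Agent.Helper74.OKA.Kern
import Pool.Agent.Helper82.OKA.B3a

set_option autoImplicit false

open Set Metric Topology MeasureTheory
open scoped Manifold ContDiff

namespace Pool.Agent.Helper74.OKA

universe u

variable {E E' H : Type} [NormedAddCommGroup E] [NormedSpace ℂ E] [FiniteDimensional ℂ E]
  [NormedAddCommGroup E'] [NormedSpace ℂ E'] [FiniteDimensional ℂ E']
  [NormedAddCommGroup H] [InnerProductSpace ℂ H] [FiniteDimensional ℂ H]

/-- B3a (uses B2) -/
theorem BallLike.prod_seg {K : Set E} (hK : IsCompact K) (h : BallLike K) :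
    BallLike (K ×ˢ seg : Set (E × ℂ)) :=
  Pool.Agent.Helper82.OKA.BallLike.prod_seg hK h

end Pool.Agent.Helper74.OKA
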